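import Pool.Agent.H91.McMullen

set_option autoImplicit false

open H91.McMullen in
theorem Pool.Agent.Results.MP_9ed304_an.Cardioid.result :
    ∀ ε : ℝ, 0 < ε → ∃ N : ℕ, 3 ≤ N ∧ ∀ n : ℕ, N ≤ n →
    ∀ a ∈ M n, ∃ p ∈ cardioid, dist a p < ε :=
  main
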